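import Pool.Agent.P8H67.TU.Stm

/-!
# Project TU (helper67), package PROP (helper43)
-/

set_option autoImplicit false

open Set Filter Topology

namespace Pool.Agent.P8H43.TU

open Pool.Agent.P8H67.TU

theorem cocpt {E Γ : Type} [NormedAddCommGroup E] [NormedSpace ℝ E] [Group Γ]
    (hol : Γ →* (E ≃ᵃ[ℝ] E)) (N : Subgroup Γ) (d : ℕ) (Φ : (Fin d → ℝ) → E → E)
    (θ : Γ →* ((Fin d → ℝ) ≃ₗ[ℝ] (Fin d → ℝ))) (hF : Flow E Γ hol N d Φ θ) :
    ∃ R : ℝ, 0 ≤ R ∧ ∀ w : Fin d → ℝ, ∃ ν ∈ N, ∃ a : Fin d → ℝ,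
    (∀ p, hol ν p = Φ a p) ∧ ‖w + a‖ ≤ R := by
  classical
  let Λ : AddSubgroup (Fin d → ℝ) :=
    { carrier := {a | ∃ ν ∈ N, ∀ p, hol ν p = Φ a p}
      zero_mem' := ⟨1, N.one_mem, fun p => by rw [map_one, hF.zero]; rfl⟩
      add_mem' := by
        rintro a b ⟨ν, hν, h1⟩ ⟨μ, hμ, h2⟩
        refine ⟨ν * μ, N.mul_mem hν hμ, fun p => ?_⟩
        rw [map_mul, hF.add]
        change hol ν (hol μ p) = _
        rw [h2, h1]
      neg_mem' := by
        rintro a ⟨ν, hν, h1⟩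
        refine ⟨ν⁻¹, N.inv_mem hν, fun p => ?_⟩
        have h2 : hol ν (Φ (-a) p) = p := by
          rw [h1, ← hF.add, add_neg_cancel, hF.zero]
        have h3 : hol ν⁻¹ (hol ν (Φ (-a) p)) = Φ (-a) p := by
          change (hol ν⁻¹ * hol ν) _ = _
          rw [← map_mul, inv_mul_cancel, map_one]; rfl
        rw [h2] at h3; exact h3 }
  have hspan : Submodule.span ℝ (Λ : Set (Fin d → ℝ)) = ⊤ := hF.spn
  have hT : ∀ i : Fin d, ∃ T : Finset (Fin d → ℝ), (T : Set (Fin d → ℝ)) ⊆ Λ ∧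
      (Pi.single i 1 : Fin d → ℝ) ∈ Submodule.span ℝ (T : Set (Fin d → ℝ)) :=
    fun i => Submodule.mem_span_finite_of_mem_span (by rw [hspan]; trivial)
  choose T hT1 hT2 using hT
  set S : Finset (Fin d → ℝ) := Finset.univ.biUnion T with hS
  have hS1 : ∀ s ∈ S, s ∈ Λ := by
    intro s hs
    rw [hS, Finset.mem_biUnion] at hs
    obtain ⟨i, _, hi⟩ := hs
    exact hT1 i hi
  have hS2 : ∀ w : Fin d → ℝ, w ∈ Submodule.span ℝ (S : Set (Fin d → ℝ)) := by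
    intro w
    have hw : w = ∑ i, w i • (Pi.single i (1 : ℝ) : Fin d → ℝ) := by
      rw [← Finset.univ_sum_single w]
      refine Finset.sum_congr rfl fun i _ => ?_
      simp [← Pi.single_smul]
    rw [hw]
    refine Submodule.sum_mem _ fun i _ => Submodule.smul_mem _ _ ?_
    refine Submodule.span_mono ?_ (hT2 i)
    intro s hs
    exact Finset.mem_coe.2 (Finset.mem_biUnion.2 ⟨i, Finset.mem_univ _, hs⟩)
  refine ⟨∑ s ∈ S, ‖s‖, Finset.sum_nonneg fun s _ => norm_nonneg s, fun w => ?_⟩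
  obtain ⟨f, -, hf⟩ := Submodule.mem_span_finset.1 (hS2 w)
  have hmem : -∑ s ∈ S, ⌊f s⌋ • s ∈ Λ :=
    Λ.neg_mem (Λ.sum_mem fun s hs => Λ.zsmul_mem (hS1 s hs) _)
  obtain ⟨ν, hν, h⟩ := hmem
  refine ⟨ν, hν, _, h, ?_⟩
  rw [← hf, ← sub_eq_add_neg, ← Finset.sum_sub_distrib]
  refine (norm_sum_le _ _).trans (Finset.sum_le_sum fun s _ => ?_)
  have e : f s • s - ⌊f s⌋ • s = Int.fract (f s) • s := by
    rw [← Int.cast_smul_eq_zsmul ℝ, ← sub_smul]; rfl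
  rw [e, norm_smul, Real.norm_eq_abs, abs_of_nonneg (Int.fract_nonneg _)]
  calc Int.fract (f s) * ‖s‖ ≤ 1 * ‖s‖ :=
        mul_le_mul_of_nonneg_right (Int.fract_lt_one _).le (norm_nonneg _)
    _ = ‖s‖ := one_mul _

theorem prop : S_PROP := by
  classical
  intro E Γ _ _ _ _ hol N _ Ω d Φ θ hD hF _ hS
  obtain ⟨R, hR, hcc⟩ := cocpt hol N d Φ θ hF
  have hcont : Continuous (fun x : (Fin d → ℝ) × E => Φ x.1 x.2) := hF.smooth.continuous
  have part1 : ∀ K ⊆ Ω, IsCompact K → ∃ R : ℝ, ∀ a, ∀ p ∈ K, Φ a p ∈ K → ‖a‖ ≤ R := by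
    intro K hK hKc
    set K' : Set E := (fun x : (Fin d → ℝ) × E => Φ x.1 x.2) '' (Metric.closedBall 0 R ×ˢ K)
      with hK'
    have hK'c : IsCompact K' :=
      ((isCompact_closedBall (0 : Fin d → ℝ) R).prod hKc).image hcont
    have hK'Ω : K' ⊆ Ω := by
      rintro _ ⟨⟨b, q⟩, ⟨_, hq⟩, rfl⟩
      exact hS b q (hK hq)
    have hfin := hD.pd K' hK'Ω hK'c
    let τ : Γ → (Fin d → ℝ) := fun ν =>
      if h : ∃ a, ∀ p, hol ν p = Φ a p then h.choose else 0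
    have hτ : ∀ ν a, (∀ p, hol ν p = Φ a p) → τ ν = a := by
      intro ν a h
      have hex : ∃ a, ∀ p, hol ν p = Φ a p := ⟨a, h⟩
      have h1 : τ ν = hex.choose := dif_pos hex
      have h2 := hex.choose_spec
      rw [← h1] at h2
      have h3 : ∀ p, Φ (τ ν - a) p = p := by
        intro p
        have : Φ (τ ν) (Φ (-a) p) = Φ a (Φ (-a) p) := by rw [← h2, ← h]
        rw [← hF.add, ← hF.add, add_neg_cancel, hF.zero] at this
        rw [sub_eq_add_neg]; exact this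
      exact sub_eq_zero.1 (hF.faith _ h3)
    refine ⟨R + ∑ ν ∈ hfin.toFinset, ‖τ ν‖, fun a p hp hap => ?_⟩
    obtain ⟨ν, _, t, ht, hle⟩ := hcc a
    have hνmem : ν ∈ hfin.toFinset := by
      rw [Set.Finite.mem_toFinset]
      refine ⟨Φ a p, ⟨(0, Φ a p), ⟨by simpa using hR, hap⟩, hF.zero _⟩, ?_⟩
      rw [ht, ← hF.add]
      refine ⟨(t + a, p), ⟨?_, hp⟩, rfl⟩
      rw [mem_closedBall_zero_iff, add_comm]
      exact hle
    have htle : ‖t‖ ≤ ∑ ν ∈ hfin.toFinset, ‖τ ν‖ := by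
      rw [← hτ ν t ht]
      exact Finset.single_le_sum (f := fun ν => ‖τ ν‖) (fun _ _ => norm_nonneg _) hνmem
    calc ‖a‖ = ‖(a + t) - t‖ := by rw [add_sub_cancel_right]
      _ ≤ ‖a + t‖ + ‖t‖ := norm_sub_le _ _
      _ ≤ _ := add_le_add hle htle
  refine ⟨⟨part1, ?_⟩, R, hcc⟩
  intro a p hp hap
  obtain ⟨R', hR'⟩ := part1 {p} (by simpa using hp) isCompact_singleton
  have h1 : ∀ t : ℝ, ‖t • a‖ ≤ R' := fun t =>
    hR' (t • a) p rfl (by rw [hF.line a p hap t]; rfl)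
  by_contra hne
  have hpos : 0 < ‖a‖ := norm_pos_iff.2 hne
  have h2 := h1 ((|R'| + 1) / ‖a‖)
  rw [norm_smul, Real.norm_eq_abs, abs_of_nonneg (by positivity),
    div_mul_cancel₀ _ hpos.ne'] at h2
  have := le_abs_self R'
  linarith

end Pool.Agent.P8H43.TU
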