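import Pool.Agent.P8H67.TU.Stm2

/-!
# Project TU (helper67), package RANK (helper43)
-/

set_option autoImplicit false

open Set Filter Topology

namespace Pool.Agent.P8H43.TU

open Pool.Agent.P8H67.TU

theorem flow_uniq {E Γ : Type} [NormedAddCommGroup E] [NormedSpace ℝ E] [Group Γ]
    {hol : Γ →* (E ≃ᵃ[ℝ] E)} {N : Subgroup Γ} {d : ℕ} {Φ : (Fin d → ℝ) → E → E}
    {θ : Γ →* ((Fin d → ℝ) ≃ₗ[ℝ] (Fin d → ℝ))} (hF : Flow E Γ hol N d Φ θ)
    {a b : Fin d → ℝ} (h : ∀ p, Φ a p = Φ b p) : a = b := by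
  have h3 : ∀ p, Φ (a - b) p = p := by
    intro p
    have : Φ a (Φ (-b) p) = Φ b (Φ (-b) p) := h _
    rw [← hF.add, ← hF.add, add_neg_cancel, hF.zero] at this
    rw [sub_eq_add_neg]; exact this
  exact sub_eq_zero.1 (hF.faith _ h3)

theorem rank : S_RANK := by
  classical
  intro E Γ _ _ _ _ hol N d Φ θ hinj hF hL r f hf
  let Λ : AddSubgroup (Fin d → ℝ) :=
    { carrier := {a | ∃ ν ∈ N, ∀ p, hol ν p = Φ a p}
      zero_mem' := ⟨1, N.one_mem, fun p => by rw [map_one, hF.zero]; rfl⟩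
      add_mem' := by
        rintro a b ⟨ν, hν, h1⟩ ⟨μ, hμ, h2⟩
        refine ⟨ν * μ, N.mul_mem hν hμ, fun p => ?_⟩
        rw [map_mul, hF.add]
        change hol ν (hol μ p) = _
        rw [h2, h1]
      neg_mem' := by
        rintro a ⟨ν, hν, h1⟩
        refine ⟨ν⁻¹, N.inv_mem hν, fun p => ?_⟩
        have h2 : hol ν (Φ (-a) p) = p := by
          rw [h1, ← hF.add, add_neg_cancel, hF.zero]
        have h3 : hol ν⁻¹ (hol ν (Φ (-a) p)) = Φ (-a) p := by
          change (hol ν⁻¹ * hol ν) _ = _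
          rw [← map_mul, inv_mul_cancel, map_one]; rfl
        rw [h2] at h3; exact h3 }
  let L : Submodule ℤ (Fin d → ℝ) := AddSubgroup.toIntSubmodule Λ
  have hspan : Submodule.span ℝ (L : Set (Fin d → ℝ)) = ⊤ := hF.spn
  obtain ⟨ρ, hρ, hlat⟩ := hL
  have : DiscreteTopology L := by
    apply discreteTopology_of_isOpen_singleton_zero
    rw [Metric.isOpen_singleton_iff]
    refine ⟨ρ, hρ, fun y hy => ?_⟩
    have h1 : ‖(y : Fin d → ℝ)‖ < ρ := by
      rw [dist_zero_right] at hy
      exact hy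
    have h2 : (y : Fin d → ℝ) = 0 := hlat _ y.2 h1
    exact Subtype.ext h2
  have : IsZLattice ℝ L := ⟨hspan⟩
  have : Module.Finite ℤ L := ZLattice.module_finite ℝ L
  have : Module.Free ℤ L := ZLattice.module_free ℝ L
  have hrank : Module.finrank ℤ L = d := by
    rw [ZLattice.rank ℝ L, Module.finrank_fin_fun]
  have hex : ∀ n : N, ∃ a, ∀ p, hol (n : Γ) p = Φ a p := fun n => hF.sub n n.2
  choose a ha using hex
  have hmul : ∀ n m : N, a (n * m) = a n + a m := by
    intro n m
    apply flow_uniq hF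
    intro p
    rw [← ha, hF.add, Subgroup.coe_mul, map_mul]
    change hol n (hol m p) = _
    rw [ha, ha]
  have hainj : ∀ n m : N, a n = a m → n = m := by
    intro n m h
    apply Subtype.ext
    apply hinj
    ext p
    rw [ha, ha, h]
  let g0 : (Fin r → ℤ) →+ L := AddMonoidHom.mk'
    (fun x => ⟨a (f (Multiplicative.ofAdd x)), ⟨_, (f (Multiplicative.ofAdd x)).2, ha _⟩⟩)
    (by
      intro x y
      apply Subtype.ext
      change a (f (Multiplicative.ofAdd (x + y))) = _
      rw [ofAdd_add, map_mul, hmul]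
      rfl)
  let g : (Fin r → ℤ) →ₗ[ℤ] L :=
    { toFun := g0
      map_add' := map_add g0
      map_smul' := fun c x => by
        rw [map_zsmul g0 c x]
        rfl }
  have hg : Function.Injective g := by
    intro x y hxy
    have h1 : a (f (Multiplicative.ofAdd x)) = a (f (Multiplicative.ofAdd y)) :=
      congrArg Subtype.val hxy
    exact Multiplicative.ofAdd.injective (hf (hainj _ _ h1))
  have h := LinearMap.finrank_le_finrank_of_injective hg
  rw [hrank, Module.finrank_fin_fun] at h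
  exact h

end Pool.Agent.P8H43.TU
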